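import Pool.Agent.Helper30_Simp2.Stmts

/-! MODULE LEAF of the squad SIMP2: the core of a finite set of monomials. A leaf of `I` is a
monomial with a private variable outside `J` of exponent one; the leaves are removed one after
another, and the order does not matter. -/

namespace Pool.Agent.Helper30_Simp2.H68

open Finset

/-- `A` is a leaf of `I` with private variable `j` -/
def IsLeaf {σ : Type} (J : Finset σ) (I : Finset (σ →₀ ℕ)) (A : σ →₀ ℕ) : Prop :=
  A ∈ I ∧ ∃ j, j ∉ J ∧ A j = 1 ∧ ∀ β ∈ I, β ≠ A → β j = 0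

open scoped Classical in
/-- remove leaves as long as possible, for at most `n` steps; count the removed leaves -/
noncomputable def strip {σ : Type} (J : Finset σ) : ℕ → Finset (σ →₀ ℕ) → Finset (σ →₀ ℕ) × ℕ
  | 0, I => (I, 0)
  | n + 1, I => if h : ∃ A, IsLeaf J I A then
      ((strip J n (I.erase h.choose)).1, (strip J n (I.erase h.choose)).2 + 1) else (I, 0)

open scoped Classical in
lemma leaf_erase {σ : Type} {J : Finset σ} {I : Finset (σ →₀ ℕ)} {A B : σ →₀ ℕ}
    (hA : IsLeaf J I A) (hAB : A ≠ B) : IsLeaf J (I.erase B) A := by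
  obtain ⟨h1, j, hj, h2, h3⟩ := hA
  exact ⟨Finset.mem_erase.mpr ⟨hAB, h1⟩, j, hj, h2, fun β hβ => h3 β (Finset.mem_of_mem_erase hβ)⟩

open scoped Classical in
lemma strip_leaf {σ : Type} (J : Finset σ) : ∀ (n : ℕ) (I : Finset (σ →₀ ℕ)) (A : σ →₀ ℕ),
    I.card ≤ n → IsLeaf J I A → strip J n I =
      ((strip J (n - 1) (I.erase A)).1, (strip J (n - 1) (I.erase A)).2 + 1) := by
  intro n
  induction n with
  | zero =>
    intro I A hI hA
    rw [Finset.card_eq_zero.mp (Nat.le_zero.mp hI)] at hA
    exact absurd hA.1 (by simp)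
  | succ n ih =>
    intro I A hI hA
    have h : ∃ A, IsLeaf J I A := ⟨A, hA⟩
    have hB := h.choose_spec
    have e1 : strip J (n + 1) I =
        ((strip J n (I.erase h.choose)).1, (strip J n (I.erase h.choose)).2 + 1) := by
      rw [strip, dif_pos h]
    rw [e1, Nat.add_sub_cancel]
    generalize h.choose = B at hB
    by_cases hAB : A = B
    · rw [hAB]
    · have c1 : (I.erase B).card ≤ n := by
        rw [Finset.card_erase_of_mem hB.1]; omega
      have c2 : (I.erase A).card ≤ n := by
        rw [Finset.card_erase_of_mem hA.1]; omega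
      rw [ih _ A c1 (leaf_erase hA hAB), ih _ B c2 (leaf_erase hB (Ne.symm hAB)),
        Finset.erase_right_comm]

open scoped Classical in
lemma strip_none {σ : Type} (J : Finset σ) (n : ℕ) (I : Finset (σ →₀ ℕ))
    (h : ¬ ∃ A, IsLeaf J I A) : strip J n I = (I, 0) := by
  cases n with
  | zero => rfl
  | succ n => rw [strip, dif_neg h]

open scoped Classical in
lemma dd_erase {σ : Type} [Fintype σ] {J : Finset σ} {I : Finset (σ →₀ ℕ)} {A : σ →₀ ℕ}
    (hA : IsLeaf J I A) : dd (I.erase A) J + 1 ≤ dd I J := by
  obtain ⟨h1, j, hj, h2, h3⟩ := hA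
  unfold dd
  rw [← Nat.lt_iff_add_one_le]
  apply Finset.card_lt_card
  rw [Finset.ssubset_iff_of_subset]
  · refine ⟨j, ?_, ?_⟩
    · simp only [Finset.mem_filter, Finset.mem_univ, true_and]
      exact ⟨hj, A, h1, by omega⟩
    · simp only [Finset.mem_filter, Finset.mem_univ, true_and, not_and, not_exists, not_not]
      intro _ β hβ
      exact h3 β (Finset.mem_of_mem_erase hβ) (Finset.ne_of_mem_erase hβ)
  · intro i hi
    simp only [Finset.mem_filter, Finset.mem_univ, true_and] at hi ⊢
    obtain ⟨h4, β, hβ, h5⟩ := hi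
    exact ⟨h4, β, Finset.mem_of_mem_erase hβ, h5⟩

open scoped Classical in
/-- the result does not depend on the number of steps allowed -/
lemma strip_fuel {σ : Type} (J : Finset σ) : ∀ (n m : ℕ) (I : Finset (σ →₀ ℕ)),
    I.card ≤ n → n ≤ m → strip J m I = strip J n I := by
  intro n
  induction n with
  | zero =>
    intro m I hI _
    have e : I = ∅ := Finset.card_eq_zero.mp (Nat.le_zero.mp hI)
    have h : ¬ ∃ A, IsLeaf J I A := by
      rintro ⟨A, hA⟩
      rw [e] at hA
      exact absurd hA.1 (by simp)
    rw [strip_none J _ _ h, strip_none J _ _ h]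
  | succ n ih =>
    intro m I hI hm
    by_cases h : ∃ A, IsLeaf J I A
    · obtain ⟨A, hA⟩ := h
      have c1 : (I.erase A).card ≤ n := by
        rw [Finset.card_erase_of_mem hA.1]; omega
      rw [strip_leaf J m I A (hI.trans hm) hA, strip_leaf J (n + 1) I A hI hA,
        Nat.add_sub_cancel, ih (m - 1) _ c1 (by omega)]
    · rw [strip_none J _ _ h, strip_none J _ _ h]

/-- MODULE LEAF -/
theorem leaf : LeafStmt := by
  classical
  intro σ _ J
  have key : ∀ (I : Finset (σ →₀ ℕ)) (A : σ →₀ ℕ), IsLeaf J I A → strip J I.card I =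
      ((strip J (I.erase A).card (I.erase A)).1,
        (strip J (I.erase A).card (I.erase A)).2 + 1) := by
    intro I A hA
    rw [strip_leaf J I.card I A le_rfl hA, Finset.card_erase_of_mem hA.1]
  have all : ∀ (n : ℕ) (I : Finset (σ →₀ ℕ)), I.card = n →
      (strip J I.card I).1 ⊆ I ∧ (¬ ∃ A, IsLeaf J (strip J I.card I).1 A) ∧
        (strip J I.card I).2 + dd (strip J I.card I).1 J ≤ dd I J := by
    intro n
    induction n with
    | zero =>
      intro I hI
      have e : I = ∅ := Finset.card_eq_zero.mp hI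
      have h : ¬ ∃ A, IsLeaf J I A := by
        rintro ⟨A, hA⟩
        rw [e] at hA
        exact absurd hA.1 (by simp)
      rw [strip_none J _ _ h]
      exact ⟨subset_rfl, h, by simp⟩
    | succ n ih =>
      intro I hI
      by_cases h : ∃ A, IsLeaf J I A
      · obtain ⟨A, hA⟩ := h
        have c1 : (I.erase A).card = n := by
          rw [Finset.card_erase_of_mem hA.1]; omega
        obtain ⟨h1, h2, h3⟩ := ih (I.erase A) c1
        rw [key I A hA]
        have h4 := dd_erase hA
        exact ⟨h1.trans (Finset.erase_subset _ _), h2, by simp only; omega⟩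
      · rw [strip_none J _ _ h]
        exact ⟨subset_rfl, h, by simp⟩
  refine ⟨fun I => (strip J I.card I).1, fun I => (strip J I.card I).2, rfl, rfl, ?_, ?_⟩
  · intro I
    obtain ⟨h1, h2, h3⟩ := all I.card I rfl
    refine ⟨h1, ?_, ?_, h3⟩
    · simp only
      rw [strip_none J _ _ h2]
    · simp only
      rw [strip_none J _ _ h2]
  · intro I A j hA hj h1 h2
    have hL : IsLeaf J I A := ⟨hA, j, hj, h1, h2⟩
    refine ⟨I.erase A, by simp, ?_, ?_, ?_⟩
    · intro β
      rw [Finset.mem_erase]
      constructor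
      · intro hβ
        by_cases h : β = A
        · exact Or.inl h
        · exact Or.inr ⟨h, hβ⟩
      · rintro (h | h)
        · rw [h]; exact hA
        · exact h.2
    · simp only
      rw [key I A hL]
    · simp only
      rw [key I A hL]

end Pool.Agent.Helper30_Simp2.H68
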